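import Pool.Agent.W571.Stu.Rev

/-!
Sturmian project (helper811), task SD-EDGE (helper571): distortion along the leaf on which the
level function is `1` (reversed digits).
-/

set_option autoImplicit false

namespace Pool.Agent.W571.Stu

open Pool.Agent.W811.Stu

lemma iter_rt (k : ℕ) (p : P3) : stepR^[k] (rt (stepR^[k] p)) = rt p := by
  induction k generalizing p with
  | zero => rfl
  | succ k ih =>
    rw [Function.iterate_succ_apply (f := stepR) (n := k) (x := p), Function.iterate_succ_apply',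
      ih (stepR p)]
    exact mstep_rt Mv.R p

lemma stepT_rt (a : ℕ) (p : P3) : stepT a (stepS (rt (stepT a p))) = stepS (rt p) := by
  have h1 : stepS (rt (stepS (stepR^[a] p))) = rt (stepR^[a] p) := mstep_rt Mv.S _
  show stepS (stepR^[a] (stepS (rt (stepS (stepR^[a] p))))) = _
  rw [h1, iter_rt]

lemma orb_rt (d : ℕ → ℕ) (m : ℕ) (p : P3) :
    orb (fun k => d (m - 1 - k)) (stepS (rt (orb d p m))) m = stepS (rt p) := by
  induction m with
  | zero => rfl
  | succ m ih =>
    have e1 : orb (fun k => d (m + 1 - 1 - k)) (stepS (rt (orb d p (m + 1)))) (m + 1) =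
        orb (fun k => d (m + 1 - 1 - k)) (stepS (rt (orb d p (m + 1)))) (1 + m) := by
      rw [add_comm]
    rw [e1, orb_add]
    have e2 : orb (fun k => d (m + 1 - 1 - k)) (stepS (rt (orb d p (m + 1)))) 1 =
        stepS (rt (orb d p m)) := stepT_rt (d m) (orb d p m)
    rw [e2]
    have e3 : orb (fun k => (fun k => d (m + 1 - 1 - k)) (1 + k)) (stepS (rt (orb d p m))) m =
        orb (fun k => d (m - 1 - k)) (stepS (rt (orb d p m))) m := by
      apply orb_congr
      intro k hk
      simp only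
      congr 1
      omega
    rw [e3, ih]

lemma z_eq (d : ℕ → ℕ) (m : ℕ) (p : P3) :
    p.z = (orb (fun k => d (m - 1 - k)) (stepS (rt (orb d p m))) m).y := by
  rw [orb_rt]
  rfl

theorem edge (_h1 : TPD) (h2 : TDist) (h3 : TEquiv) : TEdge := by
  intro lam hlam d hd m hm q E hJ hq
  have hδ : lam / 2 ≠ 0 := div_ne_zero hlam two_ne_zero
  have hc1 := one_lt_cc hδ
  obtain ⟨g, s, t, hL, hs, ht⟩ := hJ
  rw [← hs, ← ht]
  rw [← hs] at hq
  by_cases hst : s = t
  · rw [hst]
    have h0 : 0 ≤ |Vy d m (g t)| := abs_nonneg _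
    have h1 : 1 ≤ Real.exp (2 / (cc (lam / 2) - 1)) := by
      apply Real.one_le_exp
      apply div_nonneg (by norm_num)
      linarith
    nlinarith
  obtain ⟨s0, hs0, hE⟩ := h3 d m
  -- the image of the leaf
  have hPd : ∀ τ ∈ Set.uIcc s t, HasDer (fun τ => orb d (g τ) m)
      (dorb d (g τ) (LF d m (g τ)) m) τ := fun τ hτ => (hL.der τ hτ).orb d m
  have hPy : ∀ τ ∈ Set.uIcc s t, (orb d (g τ) m).y = 1 := by
    intro τ hτ
    rw [hL.lev τ hτ, hq]
  have hsq : ∀ τ ∈ Set.uIcc s t,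
      ((orb d (g τ) m).x - (orb d (g τ) m).z) ^ 2 = (lam / 2) ^ 2 := by
    intro τ hτ
    have h := (hL.onS τ hτ).orb d m
    have hy := hPy τ hτ
    unfold OnS at h
    rw [hy] at h
    linear_combination h
  obtain ⟨σ, hσ, hσX⟩ : ∃ σ : ℝ, (σ = 1 ∨ σ = -1) ∧ ∀ τ ∈ Set.uIcc s t,
      (orb d (g τ) m).x - (orb d (g τ) m).z = σ * (lam / 2) := by
    have hc : ContinuousOn (fun τ => (orb d (g τ) m).x - (orb d (g τ) m).z) (Set.uIcc s t) := by
      intro τ hτ
      have h := hPd τ hτ
      exact (h.2.2.continuousAt.sub h.1.continuousAt).continuousWithinAt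
    have hpc : IsPreconnected (Set.uIcc s t) := isPreconnected_uIcc
    rcases hpc.eq_or_eq_neg_of_sq_eq hc (continuousOn_const (c := lam / 2))
        (fun τ hτ => hsq τ hτ) (fun _ => hδ) with h | h
    · refine ⟨1, Or.inl rfl, fun τ hτ => ?_⟩
      have h' : (orb d (g τ) m).x - (orb d (g τ) m).z = lam / 2 := h hτ
      rw [h', one_mul]
    · refine ⟨-1, Or.inr rfl, fun τ hτ => ?_⟩
      have h' : (orb d (g τ) m).x - (orb d (g τ) m).z = -(lam / 2) := h hτ
      rw [h']; ring
  have hσ2 : σ * σ = 1 := by rcases hσ with h | h <;> rw [h] <;> norm_num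
  have hσ0 : σ ≠ 0 := by rcases hσ with h | h <;> rw [h] <;> norm_num
  have hσl : σ * lam ≠ 0 := mul_ne_zero hσ0 hlam
  have hcc : cc (σ * lam / 2) = cc (lam / 2) := by
    unfold cc
    congr 1
    have : (σ * lam / 2) ^ 2 = (σ * σ) * (lam / 2) ^ 2 := by ring
    rw [this, hσ2, one_mul]
  obtain ⟨e, he⟩ : ∃ e : ℕ → ℕ, e = fun k => d (m - 1 - k) := ⟨_, rfl⟩
  have he1 : ∀ k, 1 ≤ e k := by
    intro k
    rw [he]
    exact hd _
  -- representation of the first coordinate
  have hrep : ∀ τ ∈ Set.uIcc s t, (g τ).z =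
      (orb e (lin (σ * lam) (2 * (orb d (g τ) m).z)) m).y := by
    intro τ hτ
    rw [z_eq d m (g τ), ← he]
    congr 2
    have hy := hPy τ hτ
    have hx := hσX τ hτ
    ext
    · simp only [stepS, rt, lin]; exact hy
    · simp only [stepS, rt, lin]; ring
    · simp only [stepS, rt, lin]
      rw [hy]
      linear_combination (-1) * hx
  have hlin : ∀ x : ℝ, HasDerivAt (fun e' => (orb e (lin (σ * lam) e') m).y)
      (-(Vy e m (lin (σ * lam) x)) / (σ * lam)) x := fun x => hasDeriv_level hσl e m x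
  have huniq : UniqueDiffOn ℝ (Set.uIcc s t) := by
    apply uniqueDiffOn_Icc
    exact lt_of_le_of_ne inf_le_sup (by
      intro h
      exact hst (inf_eq_sup.1 h))
  have hVy : ∀ τ ∈ Set.uIcc s t, |Vy d m (g τ)| =
      |Vy e m (lin (σ * lam) (2 * (orb d (g τ) m).z))| := by
    intro τ hτ
    have hz : HasDerivAt (fun τ => (g τ).z) (Vy d m (g τ)) τ := (hL.der τ hτ).1
    have hZ : HasDerivAt (fun τ => (orb d (g τ) m).z)
        (dorb d (g τ) (LF d m (g τ)) m).z τ := (hPd τ hτ).1
    have hZv : (dorb d (g τ) (LF d m (g τ)) m).z = s0 * (σ * (lam / 2)) := by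
      rw [hE]
      simp only [lc, fH, gX]
      rw [hPy τ hτ]
      linear_combination s0 * hσX τ hτ
    rw [hZv] at hZ
    have hcomp : HasDerivAt (fun τ => (orb e (lin (σ * lam) (2 * (orb d (g τ) m).z)) m).y)
        (-(Vy e m (lin (σ * lam) (2 * (orb d (g τ) m).z))) / (σ * lam) *
          (2 * (s0 * (σ * (lam / 2))))) τ :=
      HasDerivAt.comp (h₂ := fun e' => (orb e (lin (σ * lam) e') m).y) τ
        (hlin (2 * (orb d (g τ) m).z)) (hZ.const_mul 2)
    have hw1 : HasDerivWithinAt (fun τ => (g τ).z) (Vy d m (g τ)) (Set.uIcc s t) τ :=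
      hz.hasDerivWithinAt
    have hw2 : HasDerivWithinAt (fun τ => (g τ).z)
        (-(Vy e m (lin (σ * lam) (2 * (orb d (g τ) m).z))) / (σ * lam) *
          (2 * (s0 * (σ * (lam / 2))))) (Set.uIcc s t) τ :=
      hcomp.hasDerivWithinAt.congr hrep (hrep τ hτ)
    have heq := (huniq τ hτ).eq_deriv _ hw1 hw2
    have heq2 : Vy d m (g τ) = -s0 * Vy e m (lin (σ * lam) (2 * (orb d (g τ) m).z)) := by
      rw [heq]
      field_simp
    rw [heq2, abs_mul, abs_neg]
    have : |s0| = 1 := by rcases hs0 with h | h <;> rw [h] <;> norm_num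
    rw [this, one_mul]
  have hs' : s ∈ Set.uIcc s t := Set.left_mem_uIcc
  have ht' : t ∈ Set.uIcc s t := Set.right_mem_uIcc
  rw [hVy s hs', hVy t ht']
  have hdist := ((h2 (σ * lam) hσl e he1 m).2 1 one_pos (by rw [hcc]; exact hc1)).1
    (2 * (orb d (g s) m).z) (2 * (orb d (g t) m).z) ?_
  · have := hdist.1
    rw [hcc, mul_one] at this
    exact this
  · intro x hx
    have hcont : ContinuousOn (fun τ => 2 * (orb d (g τ) m).z) (Set.uIcc s t) := by
      intro τ hτ
      exact ((hPd τ hτ).1.continuousAt.const_mul 2).continuousWithinAt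
    obtain ⟨τ, hτ, hτx⟩ := intermediate_value_uIcc hcont hx
    simp only at hτx
    rw [← hτx, ← hrep τ hτ]
    exact hL.zz τ hτ

end Pool.Agent.W571.Stu
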