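import Pool.Agent.W811.Stu.Stmts3

/-!
Sturmian project (helper811), task SD-REV (helper571): comparison of the components of push
forwards (reversed dynamics).
-/

set_option autoImplicit false

namespace Pool.Agent.W571.Stu

open Pool.Agent.W811.Stu

/-- the reversal -/
def rt (p : P3) : P3 := ⟨p.z, p.y, 2 * p.y * p.z - p.x⟩

/-- its tangent map -/
def drt (q u : P3) : P3 := ⟨u.z, u.y, 2 * q.y * u.z + 2 * q.z * u.y - u.x⟩

lemma mstep_rt (m : Mv) (p : P3) : mstep m (rt (mstep m p)) = rt p := by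
  cases m <;> ext <;> simp only [mstep, rt, stepR, stepS] <;> ring

lemma mdstep_drt (m : Mv) (p u : P3) :
    mdstep m (rt (mstep m p)) (drt (mstep m p) (mdstep m p u)) = drt p u := by
  cases m <;> ext <;> simp only [mstep, mdstep, rt, drt, stepR, stepS, dR, dS] <;> ring

lemma run_rev (W : List Mv) (p : P3) : run W.reverse (rt (run W p)) = rt p := by
  induction W generalizing p with
  | nil => rfl
  | cons m w ih =>
    rw [List.reverse_cons, run_append]
    have : run (m :: w) p = run w (mstep m p) := rfl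
    rw [this, ih]
    exact mstep_rt m p

lemma drun_rev (W : List Mv) (p u : P3) :
    drun W.reverse (rt (run W p)) (drt (run W p) (drun W p u)) = drt p u := by
  induction W generalizing p u with
  | nil => rfl
  | cons m w ih =>
    rw [List.reverse_cons, drun_append]
    have h1 : run (m :: w) p = run w (mstep m p) := rfl
    have h2 : drun (m :: w) p u = drun w (mstep m p) (mdstep m p u) := rfl
    rw [h1, h2, ih, run_rev]
    exact mdstep_drt m p u

/-! ### equivariance -/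

/-- linear functionals -/
def Lin (l : P3 → ℝ) : Prop := ∀ N u M v, l (lc N u M v) = N * l u + M * l v

lemma Lin.rep {l : P3 → ℝ} (h : Lin l) :
    ∃ α β γ : ℝ, ∀ u : P3, l u = α * u.z + β * u.y + γ * u.x := by
  refine ⟨l ⟨1, 0, 0⟩, l ⟨0, 1, 0⟩, l ⟨0, 0, 1⟩, fun u => ?_⟩
  have e : u = lc u.z ⟨1, 0, 0⟩ 1 (lc u.y ⟨0, 1, 0⟩ u.x ⟨0, 0, 1⟩) := by
    ext <;> simp [lc]
  conv_lhs => rw [e]
  rw [h, h]
  ring

/-- the field of `l` -/
def Gfl (l : P3 → ℝ) (p : P3) : P3 := ⟨l (fV p), -l (fH p), -l (fK p)⟩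

/-- the sign of a move -/
def sgm : Mv → ℝ
  | .R => 1
  | .S => -1

/-- multiple -/
def sm (s : ℝ) (u : P3) : P3 := ⟨s * u.z, s * u.y, s * u.x⟩

lemma sm_lc (s : ℝ) (u : P3) : sm s u = lc s u 0 u := by
  ext <;> simp [sm, lc]

lemma drun_sm (W : List Mv) (p : P3) (s : ℝ) (u : P3) : drun W p (sm s u) = sm s (drun W p u) := by
  rw [sm_lc, drun_lc, ← sm_lc]

lemma mdstep_Gfl (m : Mv) (p : P3) {l : P3 → ℝ} (h : Lin l) :
    mdstep m p (Gfl (fun u => l (mdstep m p u)) p) = sm (sgm m) (Gfl l (mstep m p)) := by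
  obtain ⟨α, β, γ, hl⟩ := h.rep
  cases m
  · ext <;> simp only [mdstep, mstep, Gfl, sm, sgm, hl, dR, stepR, fV, fH, fK, gA, gB, gX] <;> ring
  · ext <;> simp only [mdstep, mstep, Gfl, sm, sgm, hl, dS, stepS, fV, fH, fK, gA, gB, gX] <;> ring

lemma drun_Gfl (W : List Mv) : ∃ s : ℝ, (s = 1 ∨ s = -1) ∧ ∀ (l : P3 → ℝ), Lin l → ∀ p : P3,
    drun W p (Gfl (fun u => l (drun W p u)) p) = sm s (Gfl l (run W p)) := by
  induction W with
  | nil =>
    refine ⟨1, Or.inl rfl, fun l hl p => ?_⟩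
    ext <;> simp [drun, run, Gfl, sm]
  | cons m w ih =>
    obtain ⟨s, hs, H⟩ := ih
    refine ⟨sgm m * s, ?_, fun l hl p => ?_⟩
    · cases m <;> rcases hs with h | h <;> simp [sgm, h]
    · have h1 : Lin (fun u => l (drun w (mstep m p) u)) := by
        intro N u M v
        simp only
        rw [drun_lc, hl]
      have h2 := mdstep_Gfl m p h1
      show drun w (mstep m p) (mdstep m p (Gfl (fun u => l (drun w (mstep m p) (mdstep m p u))) p)) =
        sm (sgm m * s) (Gfl l (run w (mstep m p)))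
      rw [h2, drun_sm, H l hl (mstep m p)]
      ext <;> simp only [sm] <;> ring

lemma Gfl_z (p : P3) : Gfl (fun u => u.z) p = sm (-1) (fV p) := by
  ext <;> simp only [Gfl, sm, fV, fH, fK] <;> ring

lemma lin_z : Lin (fun u : P3 => u.z) := by
  intro N u M v
  rfl

lemma drt_fV (p : P3) : drt p (fV p) = sm (-1) (fV (rt p)) := by
  ext <;> simp only [drt, sm, fV, rt, gX, gB] <;> ring

lemma mdstep_inj (m : Mv) (p : P3) : Function.Injective (mdstep m p) := by
  intro u v h
  have hz := congrArg P3.z h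
  have hy := congrArg P3.y h
  have hx := congrArg P3.x h
  cases m
  · simp only [mdstep, dR] at hz hy hx
    ext
    · rw [hz, hy] at hx
      linarith
    · exact hy
    · exact hz
  · simp only [mdstep, dS] at hz hy hx
    ext
    · exact hy
    · exact hz
    · exact hx

lemma drun_inj (W : List Mv) (p : P3) : Function.Injective (drun W p) := by
  induction W generalizing p with
  | nil => exact fun u v h => h
  | cons m w ih => exact fun u v h => mdstep_inj m p (ih (mstep m p) h)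

lemma onS_rt {δ : ℝ} {p : P3} (h : OnS δ p) : OnS δ (rt p) := by
  unfold OnS rt at *
  simp only
  linear_combination h

lemma run_last (w : List Mv) (p : P3) :
    (run (Mv.R :: (w ++ [Mv.R])) p).z = (run w (stepR p)).x := by
  have : run (Mv.R :: (w ++ [Mv.R])) p = run (w ++ [Mv.R]) (stepR p) := rfl
  rw [this, run_append]
  rfl

lemma drun_last (w : List Mv) (p u : P3) :
    (drun (Mv.R :: (w ++ [Mv.R])) p u).z = (drun w (stepR p) (dR p u)).x := by
  have : drun (Mv.R :: (w ++ [Mv.R])) p u = drun (w ++ [Mv.R]) (stepR p) (dR p u) := rfl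
  rw [this, drun_append]
  rfl

lemma abs_sgn_mul {s : ℝ} (hs : s = 1 ∨ s = -1) (a : ℝ) : |s * a| = |a| := by
  rcases hs with h | h <;> rw [h] <;> simp

theorem rev : TRev := by
  intro δ κ hδ hκ0 hκ w p q v hS hz hq hv hqz
  obtain ⟨W, hW⟩ : ∃ W : List Mv, W = Mv.R :: (w ++ [Mv.R]) := ⟨_, rfl⟩
  rw [← hW] at hq hv
  have hWr : W.reverse = Mv.R :: (w.reverse ++ [Mv.R]) := by rw [hW]; simp
  have e1 := run_rev W p
  have e2 := drun_rev W p (fV p)
  rw [← hq] at e1
  rw [← hq, ← hv] at e2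
  obtain ⟨s, hs, H⟩ := drun_Gfl W.reverse
  have e3 := H (fun u => u.z) lin_z (rt q)
  rw [e1, Gfl_z] at e3
  rw [drt_fV] at e2
  have hss : s * s = 1 := by rcases hs with h | h <;> rw [h] <;> norm_num
  have e4 : drt q v = sm s (Gfl (fun u => (drun W.reverse (rt q) u).z) (rt q)) := by
    apply drun_inj W.reverse (rt q)
    rw [drun_sm, e3, e2]
    ext
    · simp only [sm]; linear_combination (-(-1 * (fV (rt p)).z)) * hss
    · simp only [sm]; linear_combination (-(-1 * (fV (rt p)).y)) * hss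
    · simp only [sm]; linear_combination (-(-1 * (fV (rt p)).x)) * hss
  -- comparison
  have hSq : OnS δ (rt q) := by
    rw [hq]
    exact onS_rt (hS.run W)
  have hzq : (rt q).z ^ 2 ≤ κ := hqz
  have hxq : (run w.reverse (stepR (rt q))).x ^ 2 < 1 + δ ^ 2 := by
    rw [← run_last, ← hWr, e1]
    exact hz
  obtain ⟨c1, c2, -⟩ := cmp hδ hκ0 hκ hSq hzq w.reverse hxq
  rw [← drun_last, ← drun_last, ← hWr] at c1
  rw [← drun_last, ← drun_last, ← hWr] at c2
  have hz1 : v.z = s * (drun W.reverse (rt q) (fV (rt q))).z := congrArg P3.z e4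
  have hy1 : v.y = s * -(drun W.reverse (rt q) (fH (rt q))).z := congrArg P3.y e4
  have hx1 : 2 * q.y * v.z + 2 * q.z * v.y - v.x =
      s * -(drun W.reverse (rt q) (fK (rt q))).z := congrArg P3.x e4
  have az : |v.z| = |(drun W.reverse (rt q) (fV (rt q))).z| := by rw [hz1, abs_sgn_mul hs]
  have ay : |v.y| = |(drun W.reverse (rt q) (fH (rt q))).z| := by
    rw [hy1, abs_sgn_mul hs, abs_neg]
  have ax : |2 * q.y * v.z + 2 * q.z * v.y - v.x| = |(drun W.reverse (rt q) (fK (rt q))).z| := by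
    rw [hx1, abs_sgn_mul hs, abs_neg]
  rw [← az, ← ay] at c1
  rw [← az, ← ax] at c2
  refine ⟨c1, ?_⟩
  have e5 : v.x = 2 * q.y * v.z + 2 * q.z * v.y - (2 * q.y * v.z + 2 * q.z * v.y - v.x) := by ring
  have f1 : |2 * q.y * v.z| = 2 * |q.y| * |v.z| := by
    rw [abs_mul, abs_mul]; norm_num
  have f2 : |2 * q.z * v.y| = 2 * |q.z| * |v.y| := by
    rw [abs_mul, abs_mul]; norm_num
  have f3 : 2 * |q.z| * |v.y| ≤ 2 * |q.z| * (N0 δ κ * |v.z|) :=
    mul_le_mul_of_nonneg_left c1 (by positivity)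
  calc |v.x| = |2 * q.y * v.z + 2 * q.z * v.y - (2 * q.y * v.z + 2 * q.z * v.y - v.x)| := by
        rw [← e5]
    _ ≤ |2 * q.y * v.z + 2 * q.z * v.y| + |2 * q.y * v.z + 2 * q.z * v.y - v.x| := abs_sub _ _
    _ ≤ |2 * q.y * v.z| + |2 * q.z * v.y| + |2 * q.y * v.z + 2 * q.z * v.y - v.x| := by
        gcongr
        exact abs_add_le _ _
    _ ≤ 2 * |q.y| * |v.z| + 2 * |q.z| * (N0 δ κ * |v.z|) + N0 δ κ * |v.z| := by
        rw [f1, f2]
        linarith
    _ = _ := by ring

end Pool.Agent.W571.Stu
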